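import Mathlib

set_option autoImplicit false

/-!
# MP_8a4d69_lc: exact counting programs with few states and few passes are not closed
under complement
-/

namespace Pool.Agent.Results.MP_8a4d69_lc.ComplementPrograms

open Matrix

/-! ## Oblivious exact counting programs -/

/-- One step of an oblivious program with `S` states on inputs of length `n`: it reads the input
bit at position `pos` and applies the transition matrix `mat b` if the bit is `b`. -/
structure Instr (S n : ℕ) where
  pos : Fin n
  mat : Bool → Matrix (Fin S) (Fin S) ℤ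

/-- An oblivious exact counting program: initial vector, list of steps, final vector. -/
structure Prog (S n : ℕ) where
  ini : Fin S → ℤ
  steps : List (Instr S n)
  fin : Fin S → ℤ

/-- The row vector reached after some steps. -/
def vec {S n : ℕ} (w : Fin n → Bool) (u : Fin S → ℤ) (l : List (Instr S n)) : Fin S → ℤ :=
  l.foldl (fun v I => v ᵥ* I.mat (w I.pos)) u

/-- The value (number of accepting minus number of rejecting paths). -/
def Prog.val {S n : ℕ} (P : Prog S n) (w : Fin n → Bool) : ℤ := vec w P.ini P.steps ⬝ᵥ P.fin

/-- Is the position in the first half? -/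
def left {m : ℕ} (p : Fin (m + m)) : Bool := decide ((p : ℕ) < m)

/-- The number of crossings of the middle of the input, for a list of positions. -/
def crossings {m : ℕ} : List (Fin (m + m)) → ℕ
  | [] => 0
  | [_] => 0
  | p :: q :: l => (if left p = left q then 0 else 1) + crossings (q :: l)

/-- The list of positions read by a program. -/
def Prog.order {S n : ℕ} (P : Prog S n) : List (Fin n) := P.steps.map Instr.pos

/-- The order of `k` passes over the input, from left to right. -/
def passes (k n : ℕ) : List (Fin n) := (List.replicate k (List.finRange n)).flatten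

/-- Representation of a vector valued function of `(x, y)`. -/
def Rep {X Y : Type} {S : ℕ} (K : ℕ) (V : X → Y → Fin S → ℤ) (side : Bool) : Prop :=
  match side with
  | true => ∃ (α : Fin K → Y → ℤ) (β : Fin K → X → Fin S → ℤ),
      ∀ x y s, V x y s = ∑ k, α k y * β k x s
  | false => ∃ (α : Fin K → X → ℤ) (β : Fin K → Y → Fin S → ℤ),
      ∀ x y s, V x y s = ∑ k, α k x * β k y s

lemma Rep.switch {X Y : Type} {S K : ℕ} {V : X → Y → Fin S → ℤ} {side : Bool}
    (h : Rep K V side) : Rep (K * S) V (!side) := by
  cases side with
  | true =>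
    obtain ⟨α, β, h⟩ := h
    refine ⟨fun k x => β (finProdFinEquiv.symm k).1 x (finProdFinEquiv.symm k).2,
      fun k y s => if (finProdFinEquiv.symm k).2 = s then α (finProdFinEquiv.symm k).1 y else 0, ?_⟩
    intro x y s
    rw [h, ← finProdFinEquiv.sum_comp, Fintype.sum_prod_type]
    refine Finset.sum_congr rfl fun k _ => ?_
    simp [mul_comm]
  | false =>
    obtain ⟨α, β, h⟩ := h
    refine ⟨fun k x => β (finProdFinEquiv.symm k).1 x (finProdFinEquiv.symm k).2,
      fun k y s => if (finProdFinEquiv.symm k).2 = s then α (finProdFinEquiv.symm k).1 y else 0, ?_⟩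
    intro x y s
    rw [h, ← finProdFinEquiv.sum_comp, Fintype.sum_prod_type]
    refine Finset.sum_congr rfl fun k _ => ?_
    simp [mul_comm]

lemma Rep.mulX {X Y : Type} {S K : ℕ} {V : X → Y → Fin S → ℤ} (h : Rep K V true)
    (M : X → Matrix (Fin S) (Fin S) ℤ) : Rep K (fun x y => V x y ᵥ* M x) true := by
  obtain ⟨α, β, h⟩ := h
  refine ⟨α, fun k x => β k x ᵥ* M x, ?_⟩
  intro x y s
  simp only [Matrix.vecMul, dotProduct, h, Finset.sum_mul, Finset.mul_sum]
  rw [Finset.sum_comm]
  exact Finset.sum_congr rfl fun k _ => Finset.sum_congr rfl fun t _ => by ring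

lemma Rep.mulY {X Y : Type} {S K : ℕ} {V : X → Y → Fin S → ℤ} (h : Rep K V false)
    (M : Y → Matrix (Fin S) (Fin S) ℤ) : Rep K (fun x y => V x y ᵥ* M y) false := by
  obtain ⟨α, β, h⟩ := h
  refine ⟨α, fun k y => β k y ᵥ* M y, ?_⟩
  intro x y s
  simp only [Matrix.vecMul, dotProduct, h, Finset.sum_mul, Finset.mul_sum]
  rw [Finset.sum_comm]
  exact Finset.sum_congr rfl fun k _ => Finset.sum_congr rfl fun t _ => by ring

/-- one step -/
lemma Rep.step {S K m : ℕ} {V : (Fin m → Bool) → (Fin m → Bool) → Fin S → ℤ}
    (I : Instr S (m + m)) (h : Rep K V (left I.pos)) :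
    Rep K (fun x y => V x y ᵥ* I.mat (Fin.append x y I.pos)) (left I.pos) := by
  by_cases hp : (I.pos : ℕ) < m
  · have hl : left I.pos = true := by simp [left, hp]
    rw [hl] at h ⊢
    have hap : ∀ x y : Fin m → Bool, Fin.append x y I.pos = x ⟨I.pos, hp⟩ := by
      intro x y
      have h1 : I.pos = Fin.castAdd m ⟨I.pos, hp⟩ := by ext; rfl
      conv_lhs => rw [h1]
      exact Fin.append_left _ _ _
    have h2 := h.mulX (fun x => I.mat (x ⟨I.pos, hp⟩))
    simpa only [hap] using h2
  · have hl : left I.pos = false := by simp [left, hp]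
    rw [hl] at h ⊢
    have hlt : (I.pos : ℕ) - m < m := by have := I.pos.isLt; omega
    have hap : ∀ x y : Fin m → Bool, Fin.append x y I.pos = y ⟨I.pos - m, hlt⟩ := by
      intro x y
      have h1 : I.pos = Fin.natAdd m ⟨I.pos - m, hlt⟩ := by ext; simp; omega
      conv_lhs => rw [h1]
      exact Fin.append_right _ _ _
    have h2 := h.mulY (fun y => I.mat (y ⟨I.pos - m, hlt⟩))
    simpa only [hap] using h2

lemma Rep.run {S m : ℕ} (l : List (Instr S (m + m))) :
    ∀ (K : ℕ) (V : (Fin m → Bool) → (Fin m → Bool) → Fin S → ℤ) (I : Instr S (m + m)),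
    Rep K V (left I.pos) → ∃ side, Rep (K * S ^ crossings ((I :: l).map Instr.pos))
      (fun x y => (I :: l).foldl (fun v J => v ᵥ* J.mat (Fin.append x y J.pos)) (V x y)) side := by
  induction l with
  | nil =>
    intro K V I h
    refine ⟨left I.pos, ?_⟩
    simpa [crossings] using h.step
  | cons J l ih =>
    intro K V I h
    have h1 := h.step
    by_cases hs : left I.pos = left J.pos
    · rw [hs] at h1
      obtain ⟨side, h2⟩ := ih K _ J h1
      refine ⟨side, ?_⟩
      have h3 : crossings ((I :: J :: l).map Instr.pos) = crossings ((J :: l).map Instr.pos) := by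
        simp [crossings, hs]
      rw [h3]
      exact h2
    · have h4 : (!(left I.pos)) = left J.pos := by
        cases hI : left I.pos <;> cases hJ : left J.pos <;> simp_all
      have h5 := h1.switch
      rw [h4] at h5
      obtain ⟨side, h2⟩ := ih (K * S) _ J h5
      refine ⟨side, ?_⟩
      have h3 : crossings ((I :: J :: l).map Instr.pos) =
          1 + crossings ((J :: l).map Instr.pos) := by simp [crossings, hs]
      rw [h3, pow_add, pow_one, ← mul_assoc]
      exact h2

/-- The rank bound. -/
theorem rank_bound {S m : ℕ} (P : Prog S (m + m)) :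
    ∃ (a : Fin (S ^ crossings P.order) → (Fin m → Bool) → ℤ)
      (b : Fin (S ^ crossings P.order) → (Fin m → Bool) → ℤ),
      ∀ x y, P.val (Fin.append x y) = ∑ k, a k x * b k y := by
  have key : ∃ side, Rep (S ^ crossings P.order)
      (fun x y : Fin m → Bool => vec (Fin.append x y) P.ini P.steps) side := by
    rw [Prog.order]
    cases hl : P.steps with
    | nil =>
      refine ⟨true, ?_⟩
      simp only [List.map_nil, crossings, pow_zero]
      exact ⟨fun _ _ => 1, fun _ _ => P.ini, fun x y s => by simp [vec]⟩
    | cons I l =>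
      have h0 : Rep 1 (fun _ _ : Fin m → Bool => P.ini) (left I.pos) := by
        cases left I.pos with
        | true => exact ⟨fun _ _ => 1, fun _ _ => P.ini, fun x y s => by simp⟩
        | false => exact ⟨fun _ _ => 1, fun _ _ => P.ini, fun x y s => by simp⟩
      obtain ⟨side, h1⟩ := Rep.run l 1 _ I h0
      refine ⟨side, ?_⟩
      rw [one_mul] at h1
      exact h1
  obtain ⟨side, h⟩ := key
  cases side with
  | true =>
    obtain ⟨α, β, h⟩ := h
    refine ⟨fun k x => β k x ⬝ᵥ P.fin, fun k y => α k y, ?_⟩
    intro x y
    simp only [Prog.val, dotProduct, h, Finset.sum_mul]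
    rw [Finset.sum_comm]
    exact Finset.sum_congr rfl fun k _ => Finset.sum_congr rfl fun t _ => by ring
  | false =>
    obtain ⟨α, β, h⟩ := h
    refine ⟨fun k x => α k x, fun k y => β k y ⬝ᵥ P.fin, ?_⟩
    intro x y
    simp only [Prog.val, dotProduct, h, Finset.sum_mul, Finset.mul_sum]
    rw [Finset.sum_comm]
    exact Finset.sum_congr rfl fun k _ => Finset.sum_congr rfl fun t _ => by ring

/-- A matrix whose nonzero entries are exactly the diagonal ones has full rank. -/
theorem diag_bound {X : Type} [Fintype X] [DecidableEq X] {K : ℕ} (f : X → X → ℤ)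
    (a b : Fin K → X → ℤ) (h : ∀ x y, f x y = ∑ k, a k x * b k y)
    (hf : ∀ x y, f x y ≠ 0 ↔ x = y) : Fintype.card X ≤ K := by
  set M : Matrix X X ℚ := Matrix.of fun x y => (f x y : ℚ) with hM
  set A : Matrix X (Fin K) ℚ := Matrix.of fun x k => (a k x : ℚ) with hA
  set B : Matrix (Fin K) X ℚ := Matrix.of fun k y => (b k y : ℚ) with hB
  have hMAB : M = A * B := by
    ext x y
    simp only [hM, hA, hB, Matrix.mul_apply, Matrix.of_apply, h]
    push_cast
    rfl
  have hD : M = Matrix.diagonal fun x => (f x x : ℚ) := by
    ext x y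
    by_cases hxy : x = y
    · subst hxy; simp [hM]
    · rw [Matrix.diagonal_apply_ne _ hxy]
      have : f x y = 0 := by
        by_contra h0
        exact hxy ((hf x y).mp h0)
      simp [hM, this]
  have hunit : IsUnit M := by
    rw [Matrix.isUnit_iff_isUnit_det, hD, Matrix.det_diagonal, isUnit_iff_ne_zero]
    exact Finset.prod_ne_zero_iff.mpr fun x _ => by
      have := (hf x x).mpr rfl
      exact_mod_cast this
  have h1 : M.rank = Fintype.card X := Matrix.rank_of_isUnit M hunit
  have h2 : M.rank ≤ A.rank := by rw [hMAB]; exact Matrix.rank_mul_le_left A B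
  have h3 : A.rank ≤ Fintype.card (Fin K) := Matrix.rank_le_card_width A
  rw [Fintype.card_fin] at h3
  omega

/-- Complementing equality is expensive. -/
theorem lower {S m : ℕ} (P : Prog S (m + m))
    (hP : ∀ x y : Fin m → Bool, P.val (Fin.append x y) = 0 ↔ x ≠ y) :
    2 ^ m ≤ S ^ crossings P.order := by
  obtain ⟨a, b, h⟩ := rank_bound P
  have h1 := diag_bound (fun x y : Fin m → Bool => P.val (Fin.append x y)) a b h (by
    intro x y
    rw [Ne, hP, not_not])
  simpa using h1

/-! ## Passes -/

lemma crossings_append {m : ℕ} (l l' : List (Fin (m + m))) :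
    crossings (l ++ l') ≤ crossings l + 1 + crossings l' := by
  induction l with
  | nil => simp
  | cons p l ih =>
    cases l with
    | nil =>
      cases l' with
      | nil => simp [crossings]
      | cons q l' =>
        simp only [List.cons_append, List.nil_append, crossings]
        split_ifs <;> omega
    | cons q l =>
      simp only [List.cons_append, crossings] at ih ⊢
      omega

lemma crossings_sorted_right {m : ℕ} (l : List (Fin (m + m))) (h : ∀ p ∈ l, left p = false) :
    crossings l = 0 := by
  induction l with
  | nil => rfl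
  | cons p l ih =>
    cases l with
    | nil => rfl
    | cons q l =>
      have h1 := h p (by simp)
      have h2 := h q (by simp)
      have h3 := ih (fun r hr => h r (List.mem_cons_of_mem _ hr))
      simp only [crossings, h1, h2, if_true, h3]

lemma crossings_sorted {m : ℕ} (l : List (Fin (m + m))) (h : l.Pairwise (· ≤ ·)) :
    crossings l ≤ 1 := by
  induction l with
  | nil => simp [crossings]
  | cons p l ih =>
    cases l with
    | nil => simp [crossings]
    | cons q l =>
      rw [List.pairwise_cons] at h
      have h3 := ih h.2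
      by_cases hpq : left p = left q
      · simp only [crossings, hpq, if_true]; omega
      · have hq : left q = false := by
          by_contra hq
          have hq' : left q = true := by simpa using hq
          apply hpq
          rw [hq']
          have h4 := h.1 q (by simp)
          simp only [left, decide_eq_true_eq] at hq' ⊢
          have : (p : ℕ) ≤ q := h4
          omega
        have h5 : crossings (q :: l) = 0 := by
          apply crossings_sorted_right
          intro r hr
          rcases List.mem_cons.mp hr with rfl | hr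
          · exact hq
          · have h6 := (List.pairwise_cons.mp h.2).1 r hr
            simp only [left, decide_eq_false_iff_not, not_lt] at hq ⊢
            have : (q : ℕ) ≤ r := h6
            omega
        simp only [crossings, h5]
        split_ifs <;> omega

lemma crossings_passes (k m : ℕ) : crossings (passes k (m + m)) ≤ 2 * k - 1 := by
  have h1 : crossings (List.finRange (m + m)) ≤ 1 := by
    apply crossings_sorted
    exact (List.pairwise_lt_finRange _).imp fun h => le_of_lt h
  have key : ∀ k, crossings (passes (k + 1) (m + m)) ≤ 2 * k + 1 := by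
    intro k
    induction k with
    | zero => simpa [passes] using h1
    | succ k ih =>
      have h2 : passes (k + 1 + 1) (m + m) = List.finRange (m + m) ++ passes (k + 1) (m + m) := by
        simp only [passes]
        rw [List.replicate_succ (n := k + 1), List.flatten_cons]
      rw [h2]
      have h3 := crossings_append (List.finRange (m + m)) (passes (k + 1) (m + m))
      omega
  cases k with
  | zero => simp [passes, crossings]
  | succ k => have := key k; omega

/-! ## Equality by exact counting in one pass -/

/-- transition for the first half -/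
def matL (b : Bool) : Matrix (Fin 3) (Fin 3) ℤ := !![1, if b then 1 else 0, 0; 0, 2, 0; 0, 0, 1]

/-- transition for the second half -/
def matR (b : Bool) : Matrix (Fin 3) (Fin 3) ℤ := !![1, 0, if b then 1 else 0; 0, 1, 0; 0, 0, 2]

/-- The number with given binary digits, most significant first. -/
def bv (a : ℤ) (l : List Bool) : ℤ := l.foldl (fun a b => 2 * a + if b then 1 else 0) a

lemma foldl_L (l : List Bool) : ∀ a c : ℤ,
    l.foldl (fun v b => v ᵥ* matL b) ![1, a, c] = ![1, bv a l, c] := by
  induction l with
  | nil => intro a c; simp [bv]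
  | cons b l ih =>
    intro a c
    have h1 : (![1, a, c] : Fin 3 → ℤ) ᵥ* matL b = ![1, 2 * a + (if b then 1 else 0), c] := by
      ext i
      fin_cases i <;> simp [matL, Matrix.vecMul, dotProduct, Fin.sum_univ_three] <;> ring
    rw [List.foldl_cons, h1, ih]
    simp [bv]

lemma foldl_R (l : List Bool) : ∀ a c : ℤ,
    l.foldl (fun v b => v ᵥ* matR b) ![1, a, c] = ![1, a, bv c l] := by
  induction l with
  | nil => intro a c; simp [bv]
  | cons b l ih =>
    intro a c
    have h1 : (![1, a, c] : Fin 3 → ℤ) ᵥ* matR b = ![1, a, 2 * c + (if b then 1 else 0)] := by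
      ext i
      fin_cases i <;> simp [matR, Matrix.vecMul, dotProduct, Fin.sum_univ_three] <;> ring
    rw [List.foldl_cons, h1, ih]
    simp [bv]

lemma bv_append (l : List Bool) (b : Bool) :
    bv 0 (l ++ [b]) = 2 * bv 0 l + if b then 1 else 0 := by
  simp [bv]

lemma bv_inj : ∀ (n : ℕ) (l l' : List Bool), l.length = n → l'.length = n →
    bv 0 l = bv 0 l' → l = l' := by
  intro n
  induction n with
  | zero =>
    intro l l' h h' _
    rw [List.length_eq_zero_iff] at h h'
    rw [h, h']
  | succ n ih =>
    intro l l' h h' heq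
    obtain ⟨l1, b, rfl⟩ : ∃ l1 b, l = l1 ++ [b] := by
      rcases List.eq_nil_or_concat l with h0 | ⟨l1, b, h0⟩
      · simp [h0] at h
      · exact ⟨l1, b, by rw [h0, List.concat_eq_append]⟩
    obtain ⟨l2, c, rfl⟩ : ∃ l1 b, l' = l1 ++ [b] := by
      rcases List.eq_nil_or_concat l' with h0 | ⟨l1, b, h0⟩
      · simp [h0] at h'
      · exact ⟨l1, b, by rw [h0, List.concat_eq_append]⟩
    rw [bv_append, bv_append] at heq
    have hbc : b = c := by
      cases b <;> cases c <;> simp at heq ⊢ <;> omega
    subst hbc
    have h1 : bv 0 l1 = bv 0 l2 := by omega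
    rw [ih l1 l2 (by simpa using h) (by simpa using h') h1]

/-- The program. -/
def eqProg (m : ℕ) : Prog 3 (m + m) where
  ini := ![1, 0, 0]
  steps := List.ofFn fun p : Fin (m + m) => ⟨p, fun b => if (p : ℕ) < m then matL b else matR b⟩
  fin := ![0, 1, -1]

lemma eqProg_order (m : ℕ) : (eqProg m).order = passes 1 (m + m) := by
  simp only [Prog.order, eqProg, passes, List.replicate_one, List.flatten_cons, List.flatten_nil,
    List.append_nil, List.map_ofFn]
  rw [← List.ofFn_id]
  rfl

lemma eqProg_val (m : ℕ) (x y : Fin m → Bool) :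
    (eqProg m).val (Fin.append x y) = 0 ↔ x = y := by
  have h1 : vec (Fin.append x y) (eqProg m).ini (eqProg m).steps =
      ![1, bv 0 (List.ofFn x), bv 0 (List.ofFn y)] := by
    simp only [vec, eqProg]
    rw [List.ofFn_add, List.foldl_append]
    have hL : ∀ v : Fin 3 → ℤ, List.foldl (fun v (I : Instr 3 (m + m)) =>
        v ᵥ* I.mat (Fin.append x y I.pos)) v
        (List.ofFn fun i : Fin m => (⟨Fin.castAdd m i, fun b =>
          if ((Fin.castAdd m i : Fin (m + m)) : ℕ) < m then matL b else matR b⟩ :
            Instr 3 (m + m))) = (List.ofFn x).foldl (fun v b => v ᵥ* matL b) v := by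
      intro v
      have e1 : (List.ofFn fun i : Fin m => (⟨Fin.castAdd m i, fun b =>
          if ((Fin.castAdd m i : Fin (m + m)) : ℕ) < m then matL b else matR b⟩ :
            Instr 3 (m + m))) = (List.finRange m).map fun i => (⟨Fin.castAdd m i, fun b =>
          if ((Fin.castAdd m i : Fin (m + m)) : ℕ) < m then matL b else matR b⟩ :
            Instr 3 (m + m)) := List.ofFn_eq_map
      have e2 : List.ofFn x = (List.finRange m).map x := List.ofFn_eq_map
      rw [e1, e2, List.foldl_map, List.foldl_map]
      congr 1
      funext v i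
      simp
    have hR : ∀ v : Fin 3 → ℤ, List.foldl (fun v (I : Instr 3 (m + m)) =>
        v ᵥ* I.mat (Fin.append x y I.pos)) v
        (List.ofFn fun i : Fin m => (⟨Fin.natAdd m i, fun b =>
          if ((Fin.natAdd m i : Fin (m + m)) : ℕ) < m then matL b else matR b⟩ :
            Instr 3 (m + m))) = (List.ofFn y).foldl (fun v b => v ᵥ* matR b) v := by
      intro v
      have e1 : (List.ofFn fun i : Fin m => (⟨Fin.natAdd m i, fun b =>
          if ((Fin.natAdd m i : Fin (m + m)) : ℕ) < m then matL b else matR b⟩ :
            Instr 3 (m + m))) = (List.finRange m).map fun i => (⟨Fin.natAdd m i, fun b =>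
          if ((Fin.natAdd m i : Fin (m + m)) : ℕ) < m then matL b else matR b⟩ :
            Instr 3 (m + m)) := List.ofFn_eq_map
      have e2 : List.ofFn y = (List.finRange m).map y := List.ofFn_eq_map
      rw [e1, e2, List.foldl_map, List.foldl_map]
      congr 1
      funext v i
      have h3 : ¬ ((Fin.natAdd m i : Fin (m + m)) : ℕ) < m := by simp
      show v ᵥ* (if ((Fin.natAdd m i : Fin (m + m)) : ℕ) < m then matL _ else matR _) = _
      rw [if_neg h3, Fin.append_right]
    refine (hR _).trans ?_
    refine (congrArg (fun v => (List.ofFn y).foldl (fun v b => v ᵥ* matR b) v) (hL _)).trans ?_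
    show (List.ofFn y).foldl (fun v b => v ᵥ* matR b)
      ((List.ofFn x).foldl (fun v b => v ᵥ* matL b) ![1, 0, 0]) = _
    rw [foldl_L, foldl_R]
  have h2 : (eqProg m).val (Fin.append x y) = bv 0 (List.ofFn x) - bv 0 (List.ofFn y) := by
    rw [Prog.val, h1]
    simp [eqProg, dotProduct, Fin.sum_univ_three]
    ring
  rw [h2, sub_eq_zero]
  constructor
  · intro h
    have h3 := bv_inj m _ _ (by simp) (by simp) h
    exact List.ofFn_injective h3
  · rintro rfl; rfl

/-- The result. -/
theorem result :
    -- equality is an exact counting language with one pass and three states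
    (∀ m : ℕ, ∃ P : Prog 3 (m + m), P.order = passes 1 (m + m) ∧
      (∀ I ∈ P.steps, ∀ c i j, 0 ≤ I.mat c i j ∧ I.mat c i j ≤ 2) ∧
      ∀ x y : Fin m → Bool, P.val (Fin.append x y) = 0 ↔ x = y) ∧
    -- its complement needs many crossings of the middle, in particular many passes
    (∀ (S m : ℕ) (P : Prog S (m + m)),
      (∀ x y : Fin m → Bool, P.val (Fin.append x y) = 0 ↔ x ≠ y) →
      2 ^ m ≤ S ^ crossings P.order ∧
      ∀ k : ℕ, 1 ≤ S → P.order = passes k (m + m) → 2 ^ m ≤ S ^ (2 * k - 1)) := by
  refine ⟨?_, ?_⟩
  · intro m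
    refine ⟨eqProg m, eqProg_order m, ?_, eqProg_val m⟩
    intro I hI c i j
    simp only [eqProg, List.mem_ofFn] at hI
    obtain ⟨p, rfl⟩ := hI
    show 0 ≤ (if (p : ℕ) < m then matL c else matR c) i j ∧
      (if (p : ℕ) < m then matL c else matR c) i j ≤ 2
    split_ifs
    · fin_cases i <;> fin_cases j <;> cases c <;> simp [matL]
    · fin_cases i <;> fin_cases j <;> cases c <;> simp [matR]
  · intro S m P hP
    have h1 := lower P hP
    refine ⟨h1, fun k hS hk => ?_⟩
    refine h1.trans (Nat.pow_le_pow_right hS ?_)
    rw [hk]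
    exact crossings_passes k m

end Pool.Agent.Results.MP_8a4d69_lc.ComplementPrograms
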