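import Mathlib

set_option autoImplicit false

/-!
# MP_8a4d69_lc: algebraic reductions from nonsingularity to singularity need large matrices
-/

namespace Pool.Agent.Results.MP_8a4d69_lc.ComplementReductions

open Matrix

/-! ## Algebraic reductions from nonsingularity to singularity -/

/-- The integer matrix with entries 0 and 1 given by a Boolean matrix. -/
def toInt {ι : Type} (A : ι → ι → Bool) : Matrix ι ι ℤ :=
  Matrix.of fun i j => if A i j then 1 else 0

/-- flip one coordinate -/
def flip {σ : Type} [DecidableEq σ] (x : σ → Bool) (k : σ) : σ → Bool :=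
  Function.update x k (!(x k))

/-- sign of a point of the cube -/
def sgn {σ : Type} [Fintype σ] (F : Type) [CommRing F] (x : σ → Bool) : F :=
  ∏ k, if x k then (-1 : F) else 1

lemma sgn_flip {σ : Type} [Fintype σ] [DecidableEq σ] (F : Type) [CommRing F] (x : σ → Bool)
    (k : σ) : sgn F (flip x k) = - sgn F x := by
  simp only [sgn]
  rw [← Finset.mul_prod_erase Finset.univ _ (Finset.mem_univ k),
    ← Finset.mul_prod_erase Finset.univ (fun k => if x k then (-1 : F) else 1) (Finset.mem_univ k)]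
  have h1 : ∏ j ∈ Finset.univ.erase k, (if flip x k j then (-1 : F) else 1) =
      ∏ j ∈ Finset.univ.erase k, (if x j then (-1 : F) else 1) := by
    refine Finset.prod_congr rfl fun j hj => ?_
    rw [flip, Function.update_of_ne (Finset.ne_of_mem_erase hj)]
  rw [h1]
  have h2 : flip x k k = !(x k) := by simp [flip]
  rw [h2]
  cases x k <;> simp

lemma flip_flip {σ : Type} [DecidableEq σ] (x : σ → Bool) (k : σ) : flip (flip x k) k = x := by
  funext j
  by_cases hj : j = k
  · subst hj; simp [flip]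
  · simp [flip, Function.update_of_ne hj]

lemma flip_ne {σ : Type} [DecidableEq σ] (x : σ → Bool) (k : σ) : flip x k ≠ x := by
  intro h
  have h1 := congrFun h k
  simp [flip] at h1

/-- Alternating sums over a cube kill polynomials of small degree. -/
theorem alt_sum {σ τ : Type} [Fintype σ] [DecidableEq σ] {F : Type} [CommRing F]
    (P : MvPolynomial τ F) (A : (σ → Bool) → τ → F) (pos : σ → τ) (hpos : Function.Injective pos)
    (hA : ∀ x k t, t ≠ pos k → A (flip x k) t = A x t) (hP : P.totalDegree < Fintype.card σ) :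
    ∑ x : σ → Bool, sgn F x * MvPolynomial.eval (A x) P = 0 := by
  classical
  simp only [MvPolynomial.eval_eq, Finset.mul_sum]
  rw [Finset.sum_comm]
  refine Finset.sum_eq_zero fun s hs => ?_
  have hdeg : (s.sum fun _ e => e) ≤ P.totalDegree := MvPolynomial.le_totalDegree hs
  obtain ⟨k, hk⟩ : ∃ k : σ, s (pos k) = 0 := by
    by_contra hcon
    have hall : ∀ k : σ, 1 ≤ s (pos k) := fun k => Nat.one_le_iff_ne_zero.mpr fun h => hcon ⟨k, h⟩
    have h1 : Fintype.card σ ≤ ∑ k : σ, s (pos k) := by
      calc Fintype.card σ = ∑ _k : σ, 1 := by simp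
        _ ≤ ∑ k : σ, s (pos k) := Finset.sum_le_sum fun k _ => hall k
    have h2 : ∑ k : σ, s (pos k) = ∑ t ∈ Finset.univ.image pos, s t := by
      rw [Finset.sum_image fun x _ y _ h => hpos h]
    have h3 : ∑ t ∈ Finset.univ.image pos, s t ≤ ∑ t ∈ s.support, s t := by
      refine Finset.sum_le_sum_of_subset ?_
      intro t ht
      rw [Finset.mem_image] at ht
      obtain ⟨k, _, rfl⟩ := ht
      rw [Finsupp.mem_support_iff]
      have := hall k
      omega
    have h4 : (s.sum fun _ e => e) = ∑ t ∈ s.support, s t := rfl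
    omega
  refine Finset.sum_involution (fun x _ => flip x k) ?_ ?_ ?_ ?_
  · intro x _
    have h1 : ∏ t ∈ s.support, A (flip x k) t ^ s t = ∏ t ∈ s.support, A x t ^ s t := by
      refine Finset.prod_congr rfl fun t ht => ?_
      rw [hA x k t]
      rintro rfl
      rw [Finsupp.mem_support_iff] at ht
      exact ht hk
    rw [h1, sgn_flip]
    ring
  · intro x _ _
    exact flip_ne x k
  · intro x _
    exact Finset.mem_univ _
  · intro x _
    exact flip_flip x k

/-- The matrices used for the lower bound. -/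
def bigA {a b : ℕ} (x : Fin a × Fin b → Bool) :
    (Unit ⊕ (Fin a ⊕ Fin b)) → (Unit ⊕ (Fin a ⊕ Fin b)) → Bool
  | .inl _, .inl _ => false
  | .inl _, .inr (.inl _) => true
  | .inl _, .inr (.inr _) => false
  | .inr (.inl u), .inr (.inl u') => decide (u = u')
  | .inr (.inl u), .inr (.inr v) => x (u, v)
  | .inr (.inl _), .inl _ => false
  | .inr (.inr _), .inl _ => true
  | .inr (.inr _), .inr (.inl _) => false
  | .inr (.inr v), .inr (.inr v') => decide (v = v')

lemma det_bigA {a b : ℕ} (x : Fin a × Fin b → Bool) :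
    (toInt (bigA x)).det = ∑ u, ∑ v, if x (u, v) then (1 : ℤ) else 0 := by
  set X : Matrix (Fin a) (Fin b) ℤ := Matrix.of fun u v => if x (u, v) then (1 : ℤ) else 0 with hX
  set D : Matrix (Fin a ⊕ Fin b) (Fin a ⊕ Fin b) ℤ := Matrix.fromBlocks 1 X 0 1 with hD
  set B : Matrix Unit (Fin a ⊕ Fin b) ℤ := Matrix.of fun _ j => Sum.elim (fun _ => 1) (fun _ => 0) j
    with hB
  set C : Matrix (Fin a ⊕ Fin b) Unit ℤ := Matrix.of fun i _ => Sum.elim (fun _ => 0) (fun _ => 1) i
    with hC
  have hM : toInt (bigA x) = Matrix.fromBlocks 0 B C D := by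
    ext i j
    rcases i with i | i | i <;> rcases j with j | j | j <;>
      first
        | (simp [toInt, bigA, hB, hC, hD, hX, Matrix.one_apply]; done)
        | rfl
  have hDinv : D * Matrix.fromBlocks 1 (-X) 0 1 = 1 := by
    rw [hD, Matrix.fromBlocks_multiply]
    simp
  have hDinv2 : Matrix.fromBlocks 1 (-X) 0 1 * D = 1 := by
    rw [hD, Matrix.fromBlocks_multiply]
    simp
  let hI : Invertible D := ⟨_, hDinv2, hDinv⟩
  have hinv : ⅟D = Matrix.fromBlocks 1 (-X) 0 1 := invOf_eq_right_inv hDinv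
  have hdet : D.det = 1 := by rw [hD, Matrix.det_fromBlocks_zero₂₁]; simp
  rw [hM, Matrix.det_fromBlocks₂₂, hdet, one_mul, Matrix.det_unique, hinv]
  simp only [Matrix.sub_apply, Matrix.zero_apply, zero_sub]
  have h1 : (B * (Matrix.fromBlocks 1 (-X) 0 1 : Matrix (Fin a ⊕ Fin b) (Fin a ⊕ Fin b) ℤ) * C :
      Matrix Unit Unit ℤ) default default =
      - ∑ u, ∑ v, (if x (u, v) then (1 : ℤ) else 0) := by
    simp only [Matrix.mul_apply, Fintype.sum_sum_type, hB, hC, Matrix.of_apply, Sum.elim_inl,
      Sum.elim_inr, Matrix.fromBlocks_apply₁₁, Matrix.fromBlocks_apply₁₂,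
      Matrix.fromBlocks_apply₂₁, Matrix.fromBlocks_apply₂₂, mul_zero, mul_one, zero_mul, one_mul,
      Finset.sum_const_zero, add_zero, zero_add, Matrix.neg_apply, hX]
    rw [← Finset.sum_neg_distrib, Finset.sum_comm]
    simp
  rw [h1, neg_neg]

/-- degree of a determinant -/
lemma det_degree {τ F : Type} [CommRing F] {N d : ℕ}
    (Φ : Matrix (Fin N) (Fin N) (MvPolynomial τ F)) (h : ∀ i j, (Φ i j).totalDegree ≤ d) :
    Φ.det.totalDegree ≤ N * d := by
  rw [Matrix.det_apply]
  refine (MvPolynomial.totalDegree_finsetSum _ _).trans (Finset.sup_le fun p _ => ?_)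
  have h1 : (∏ i, Φ (p i) i).totalDegree ≤ N * d := by
    refine (MvPolynomial.totalDegree_finsetProd _ _).trans ?_
    calc ∑ i : Fin N, (Φ (p i) i).totalDegree ≤ ∑ _i : Fin N, d :=
          Finset.sum_le_sum fun i _ => h _ _
      _ = N * d := by simp
  rcases Int.units_eq_one_or (Equiv.Perm.sign p) with hs | hs
  · rw [hs, one_smul]; exact h1
  · rw [hs]
    have h2 : (-1 : ℤˣ) • (∏ i, Φ (p i) i) = -(∏ i, Φ (p i) i) := by
      rw [Units.neg_smul, one_smul]
    rw [h2, MvPolynomial.totalDegree_neg]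
    exact h1

/-- Algebraic reductions need large dimension. -/
theorem reduction_lower {F : Type} [Field F] {a b N d : ℕ}
    (Φ : Matrix (Fin N) (Fin N) (MvPolynomial (Fin (1 + (a + b)) × Fin (1 + (a + b))) F))
    (hd : ∀ i j, (Φ i j).totalDegree ≤ d)
    (h : ∀ A : Fin (1 + (a + b)) → Fin (1 + (a + b)) → Bool, (toInt A).det ≠ 0 ↔
      MvPolynomial.eval (fun p => if A p.1 p.2 then (1 : F) else 0) Φ.det = 0) :
    a * b ≤ N * d := by
  by_contra hcon
  have hlt : N * d < a * b := by omega
  -- indices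
  have hcard : Fintype.card (Unit ⊕ (Fin a ⊕ Fin b)) = 1 + (a + b) := by simp
  let e : (Unit ⊕ (Fin a ⊕ Fin b)) ≃ Fin (1 + (a + b)) := Fintype.equivFinOfCardEq hcard
  let AA : (Fin a × Fin b → Bool) → Fin (1 + (a + b)) → Fin (1 + (a + b)) → Bool :=
    fun x i j => bigA x (e.symm i) (e.symm j)
  have hdetAA : ∀ x, (toInt (AA x)).det = ∑ u, ∑ v, if x (u, v) then (1 : ℤ) else 0 := by
    intro x
    have h1 : toInt (AA x) = Matrix.reindex e e (toInt (bigA x)) := by
      ext i j; rfl
    rw [h1, Matrix.det_reindex_self, det_bigA]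
  have hne : ∀ x, (toInt (AA x)).det ≠ 0 ↔ x ≠ fun _ => false := by
    intro x
    rw [hdetAA]
    constructor
    · rintro h1 rfl
      apply h1
      simp
    · intro h1 h2
      apply h1
      funext ⟨u, v⟩
      have h3 := (Finset.sum_eq_zero_iff_of_nonneg (fun u _ => Finset.sum_nonneg fun v _ => by
        split_ifs <;> norm_num)).mp h2 u (Finset.mem_univ u)
      have h4 := (Finset.sum_eq_zero_iff_of_nonneg (fun v _ => by
        split_ifs <;> norm_num)).mp h3 v (Finset.mem_univ v)
      by_contra h5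
      have h6 : x (u, v) = true := by simpa using h5
      rw [h6] at h4
      simp at h4
  have hsum := alt_sum (σ := Fin a × Fin b) Φ.det
    (fun x p => if AA x p.1 p.2 then (1 : F) else 0)
    (fun k => (e (.inr (.inl k.1)), e (.inr (.inr k.2)))) (by
      rintro ⟨u, v⟩ ⟨u', v'⟩ h1
      simp only [Prod.mk.injEq, EmbeddingLike.apply_eq_iff_eq, Sum.inr.injEq, Sum.inl.injEq] at h1
      rw [Prod.mk.injEq]; exact h1) (by
      rintro x ⟨u, v⟩ ⟨i, j⟩ hij
      have key : ∀ i' j' : Unit ⊕ (Fin a ⊕ Fin b), (i', j') ≠ (Sum.inr (Sum.inl u), Sum.inr (Sum.inr v)) →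
          bigA (flip x (u, v)) i' j' = bigA x i' j' := by
        intro i' j' h1
        rcases i' with i' | i' | i' <;> rcases j' with j' | j' | j' <;> simp only [bigA]
        have h2 : (i', j') ≠ (u, v) := by
          rintro h3
          simp only [Prod.mk.injEq] at h3
          apply h1
          rw [h3.1, h3.2]
        exact Function.update_of_ne h2 _ _
      have h1 : (e.symm i, e.symm j) ≠ (Sum.inr (Sum.inl u), Sum.inr (Sum.inr v)) := by
        intro h2
        simp only [Prod.mk.injEq] at h2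
        apply hij
        simp only [Prod.mk.injEq]
        exact ⟨by rw [← h2.1]; simp, by rw [← h2.2]; simp⟩
      have h3 := key _ _ h1
      show (if bigA (flip x (u, v)) (e.symm i) (e.symm j) then (1 : F) else 0) =
        if bigA x (e.symm i) (e.symm j) then (1 : F) else 0
      rw [h3]) (by
      have h1 := det_degree Φ hd
      simp only [Fintype.card_prod, Fintype.card_fin]
      omega)
  rw [Finset.sum_eq_single (fun _ => false)] at hsum
  · have h1 : ¬ ((toInt (AA fun _ => false)).det ≠ 0) := by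
      rw [hne]; simp
    rw [h] at h1
    rcases mul_eq_zero.mp hsum with h2 | h2
    · simp [sgn] at h2
    · exact h1 h2
  · intro x _ hx
    have h1 := (h (AA x)).mp ((hne x).mpr hx)
    rw [h1, mul_zero]
  · intro h1
    exact absurd (Finset.mem_univ _) h1

/-- The result. -/
theorem result :
    ∀ (F : Type) [Field F] (n N d : ℕ) (_ : 1 ≤ n)
      (Φ : Matrix (Fin N) (Fin N) (MvPolynomial (Fin n × Fin n) F)),
      (∀ i j, (Φ i j).totalDegree ≤ d) →
      (∀ A : Fin n → Fin n → Bool, (toInt A).det ≠ 0 ↔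
        MvPolynomial.eval (fun p => if A p.1 p.2 then (1 : F) else 0) Φ.det = 0) →
      (n - 1) ^ 2 / 4 ≤ N * d := by
  intro F _ n N d hn Φ hd h
  obtain ⟨a, b, rfl, hab⟩ : ∃ a b : ℕ, n = 1 + (a + b) ∧ (n - 1) ^ 2 / 4 ≤ a * b := by
    obtain ⟨q, hq⟩ : ∃ q, n - 1 = 2 * q ∨ n - 1 = 2 * q + 1 := ⟨(n - 1) / 2, by omega⟩
    rcases hq with hq | hq
    · refine ⟨q, q, by omega, ?_⟩
      rw [hq]
      have : (2 * q) ^ 2 = 4 * (q * q) := by ring
      rw [this]; omega
    · refine ⟨q, q + 1, by omega, ?_⟩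
      rw [hq]
      have : (2 * q + 1) ^ 2 = 4 * (q * (q + 1)) + 1 := by ring
      rw [this]; omega
  exact hab.trans (reduction_lower Φ hd h)

end Pool.Agent.Results.MP_8a4d69_lc.ComplementReductions
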